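import Pool.Agent.Helper83.CB.Defs4

set_option autoImplicit false

/-!
# (4.7) transgression from the orthogonal projection to the identity
-/

open Filter Topology MeasureTheory

namespace Pool.Agent.Helper83.CB

/-! ### almost everywhere statements and fractional parts -/

theorem TRG_ae_fr {ι : Type} [Fintype ι] {p : (ι → ℝ) → Prop} (h : ∀ᵐ x, p x) :
    ∀ᵐ x : ι → ℝ, p (fr x) := by
  have h1 : ∀ᵐ x : ι → ℝ, ∀ z : ι → ℤ, p (x - fun i => (z i : ℝ)) := by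
    rw [ae_all_iff]
    intro z
    exact (measurePreserving_sub_right (volume : Measure (ι → ℝ))
      (fun i => (z i : ℝ))).quasiMeasurePreserving.ae h
  filter_upwards [h1] with x hx
  have h2 := hx (fun i => ⌊x i⌋)
  have h3 : (x - fun i => ((⌊x i⌋ : ℤ) : ℝ)) = fr x := by
    funext i
    exact Int.self_sub_floor (x i)
  rwa [h3] at h2

theorem TRG_fr_mem {ι : Type} [Fintype ι] (x : ι → ℝ) : fr x ∈ Metric.ball (0 : ι → ℝ) 3 := by
  rw [Metric.mem_ball, dist_zero_right]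
  refine lt_of_le_of_lt ((pi_norm_le_iff_of_nonneg (zero_le_one)).2 fun i => ?_) (by norm_num)
  unfold fr
  rw [Real.norm_of_nonneg (Int.fract_nonneg _)]
  exact (Int.fract_lt_one _).le

/-! ### the cut-off function -/

/-- smooth, `1`-periodic, `0` near `0`, `1` near `1 / 2` -/
noncomputable def TRG_gam (t : ℝ) : ℝ := Real.smoothTransition (1 / 2 - Real.cos (2 * Real.pi * t))

theorem TRG_gam_smooth : ContDiff ℝ (⊤ : ℕ∞) TRG_gam := by
  unfold TRG_gam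
  refine Real.smoothTransition.contDiff.comp ?_
  exact contDiff_const.sub (Real.contDiff_cos.comp (contDiff_const.mul contDiff_id))

theorem TRG_gam_per (t : ℝ) : TRG_gam (t + 1) = TRG_gam t := by
  unfold TRG_gam
  rw [show 2 * Real.pi * (t + 1) = 2 * Real.pi * t + 2 * Real.pi by ring, Real.cos_add_two_pi]

theorem TRG_gam_bd (t : ℝ) : |TRG_gam t| ≤ 1 := by
  unfold TRG_gam
  rw [abs_of_nonneg (Real.smoothTransition.nonneg _)]
  exact Real.smoothTransition.le_one _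

theorem TRG_cos {t : ℝ} (ht : |t| ≤ 1 / 8) : 1 / 2 ≤ Real.cos (2 * Real.pi * t) := by
  rw [← Real.cos_abs, ← Real.cos_pi_div_three]
  have h1 : |2 * Real.pi * t| ≤ Real.pi / 3 := by
    rw [abs_mul, abs_of_pos (by positivity : 0 < 2 * Real.pi)]
    nlinarith [Real.pi_pos]
  refine Real.cos_le_cos_of_nonneg_of_le_pi (abs_nonneg _) ?_ h1
  linarith [Real.pi_pos]

theorem TRG_gam0 {t : ℝ} (ht : |t| ≤ 1 / 8) : TRG_gam t = 0 := by
  unfold TRG_gam
  have := TRG_cos ht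
  exact Real.smoothTransition.zero_of_nonpos (by linarith)

theorem TRG_gam1 {t : ℝ} (ht : |t - 1 / 2| ≤ 1 / 8) : TRG_gam t = 1 := by
  unfold TRG_gam
  have h1 := TRG_cos ht
  have h2 : Real.cos (2 * Real.pi * t) = -Real.cos (2 * Real.pi * (t - 1 / 2)) := by
    rw [show 2 * Real.pi * (t - 1 / 2) = 2 * Real.pi * t - Real.pi by ring, Real.cos_sub_pi]
    ring
  exact Real.smoothTransition.one_of_one_le (by rw [h2]; linarith)

theorem TRG_gam_lip : ∃ C : NNReal, LipschitzWith C TRG_gam := by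
  have hd : Differentiable ℝ TRG_gam := TRG_gam_smooth.differentiable (by simp)
  have hc : Continuous (deriv TRG_gam) := TRG_gam_smooth.continuous_deriv (by simp)
  have hp : Function.Periodic (deriv TRG_gam) 1 := by
    intro t
    have h1 : deriv (fun s => TRG_gam (s + 1)) t = deriv TRG_gam (t + 1) :=
      deriv_comp_add_const TRG_gam 1 t
    rw [← h1]
    congr 1
    funext s
    exact TRG_gam_per s
  have hcomp : IsCompact (Set.range (deriv TRG_gam)) :=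
    hp.compact_of_continuous one_ne_zero hc
  obtain ⟨C, hC⟩ := hcomp.isBounded.exists_norm_le
  refine ⟨Real.toNNReal C, lipschitzWith_of_nnnorm_deriv_le hd fun t => ?_⟩
  rw [← NNReal.coe_le_coe, coe_nnnorm]
  exact (hC _ ⟨t, rfl⟩).trans (Real.le_coe_toNNReal C)

/-! ### invariance of trace polynomials -/

theorem TRG_pow {R : Type*} [Ring R] (u v y : R) (huv : u * v = 1) (hvu : v * u = 1) (j : ℕ) :
    (u * y * v) ^ j = u * y ^ j * v := by
  induction j with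
  | zero => simp [huv]
  | succ j ih =>
    rw [pow_succ, ih, pow_succ]
    calc u * y ^ j * v * (u * y * v) = u * y ^ j * (v * u) * y * v := by noncomm_ring
      _ = u * (y ^ j * y) * v := by rw [hvu]; noncomm_ring

theorem TRG_trace {n : ℕ} (u v Y : M n) (huv : u * v = 1) (hvu : v * u = 1) (j : ℕ) :
    LinearMap.trace ℂ (E n) ((((-Complex.I) • (u * Y * v)) ^ j : M n) : E n →ₗ[ℂ] E n) =
      LinearMap.trace ℂ (E n) ((((-Complex.I) • Y) ^ j : M n) : E n →ₗ[ℂ] E n) := by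
  have h1 : ((-Complex.I) • (u * Y * v) : M n) = u * ((-Complex.I) • Y) * v := by
    rw [mul_smul_comm, smul_mul_assoc]
  rw [h1, TRG_pow u v _ huv hvu]
  set Z : M n := ((-Complex.I) • Y) ^ j
  have h2 : ((u * Z * v : M n) : E n →ₗ[ℂ] E n) =
      ((u : E n →ₗ[ℂ] E n) * (Z : E n →ₗ[ℂ] E n)) * (v : E n →ₗ[ℂ] E n) := rfl
  rw [h2, LinearMap.trace_mul_comm, ← mul_assoc]
  have h3 : ((v : E n →ₗ[ℂ] E n) * (u : E n →ₗ[ℂ] E n)) = 1 := by
    have : ((v * u : M n) : E n →ₗ[ℂ] E n) = 1 := by rw [hvu]; rfl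
    exact this
  rw [h3, one_mul]

section main

variable {n q j : ℕ} {c : Fin q → (M n →ₗ[ℝ] ℝ)} {P : MvPolynomial (Fin q) ℝ}

theorem TRG_inv (hP : ∀ Y : M n, MvPolynomial.eval (fun a => c a Y) P =
    (LinearMap.trace ℂ (E n) ((((-Complex.I) • Y) ^ j : M n) : E n →ₗ[ℂ] E n)).re)
    (u v Y : M n) (huv : u * v = 1) (hvu : v * u = 1) :
    MvPolynomial.eval (fun a => c a (u * Y * v)) P = MvPolynomial.eval (fun a => c a Y) P := by
  rw [hP, hP, TRG_trace u v Y huv hvu]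

theorem TRG_InvL (hP : ∀ Y : M n, MvPolynomial.eval (fun a => c a Y) P =
    (LinearMap.trace ℂ (E n) ((((-Complex.I) • Y) ^ j : M n) : E n →ₗ[ℂ] E n)).re) :
    InvL ⊤ c P := by
  intro X _ Y _
  let _ : NormedAlgebra ℚ (M n) := NormedAlgebra.restrictScalars ℚ ℂ (M n)
  refine TRG_inv hP _ _ Y ?_ ?_
  · rw [← NormedSpace.exp_add_of_commute (Commute.neg_right (Commute.refl X)), add_neg_cancel,
      NormedSpace.exp_zero]
  · rw [← NormedSpace.exp_add_of_commute (Commute.neg_left (Commute.refl X)), neg_add_cancel,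
      NormedSpace.exp_zero]

/-- conjugation does not change the value -/
theorem TRG_conj (hEQP : ST_EQP) {ι : Type} [Fintype ι] [DecidableEq ι] (Λ : Ext ι)
    (hP : ∀ Y : M n, MvPolynomial.eval (fun a => c a Y) P =
    (LinearMap.trace ℂ (E n) ((((-Complex.I) • Y) ^ j : M n) : E n →ₗ[ℂ] E n)).re)
    (g : M n) (h1 : star g * g = 1) (h2 : g * star g = 1) (F : ι → ι → M n) :
    PF Λ c P (fun μ ν => star g * F μ ν * g) = PF Λ c P F := by
  let T : M n →ₗ[ℝ] M n :=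
    { toFun := fun Y => star g * Y * g
      map_add' := fun Y Z => by rw [mul_add, add_mul]
      map_smul' := fun r Y => by simp [mul_smul_comm, smul_mul_assoc] }
  have h3 : PF Λ c P (fun μ ν => star g * F μ ν * g) = PF Λ (fun a => (c a).comp T) P F := rfl
  rw [h3]
  refine hEQP ι Λ n q q _ c P P ⊤ (fun Y _ => ?_) F (fun _ _ => Submodule.mem_top)
  exact TRG_inv hP (star g) g Y h1 h2

theorem TRG_ev (hEV : ST_EV) (hEVEN : ST_EVEN) {ι : Type} [Fintype ι] [DecidableEq ι]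
    (Λ : Ext ι) (F : ι → ι → M n) : PF Λ c P F ∈ Λ.ev := by
  obtain ⟨Φ, -, -, h3⟩ := hEV q (Λ.X →L[ℝ] Λ.X) (fun a => Λ.two fun μ ν => c a (F μ ν))
    (fun i j => (hEVEN ι Λ).2.1 _ ((hEVEN ι Λ).2.2 _) _ ((hEVEN ι Λ).2.2 _))
  refine (Algebra.adjoin_le ?_) (h3 P)
  rintro _ ⟨a, rfl⟩
  exact (hEVEN ι Λ).2.2 _

/-! ### the curvature for constant cut-off -/

variable {ι : Type} [Fintype ι] [DecidableEq ι]

/-- the pull back of the cut-off function -/
noncomputable def TRG_g (t : ι) (x : ι → ℝ) : ℝ := TRG_gam (x t)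

theorem TRG_z (a b c d : M n) : (0 : ℝ) • a - (0 : ℝ) • b = (0 : ℝ) • c - (0 : ℝ) • d := by
  rw [zero_smul ℝ a, zero_smul ℝ b, zero_smul ℝ c, zero_smul ℝ d]

omit [Fintype ι] in
theorem TRG_F0 (K : (ι → ℝ) → E (n + 1) →L[ℂ] E n) (L : (ι → ℝ) → E n →L[ℂ] E (n + 1))
    (g : (ι → ℝ) → ℝ) (pr : M n →ₗ[ℝ] M n) (x : ι → ℝ) (hg : ∀ᶠ y in 𝓝 x, g y = 0) :
    Fcon K L g pr (LinearMap.id - pr) x = Fcon K L (fun _ => 0) pr 0 x := by
  have h1 : ∀ μ, pd g x μ = 0 := by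
    intro μ
    unfold pd
    rw [(show g =ᶠ[𝓝 x] fun _ => (0 : ℝ) from hg).fderiv_eq]
    simp
  have h2 : ∀ Y : M n, Qx g pr (LinearMap.id - pr) x Y = Qx (fun _ => 0) pr 0 x Y := by
    intro Y
    show pr Y + g x • (Y - pr Y) = pr Y + (0 : ℝ) • (0 : M n)
    rw [hg.self_of_nhds, zero_smul ℝ (Y - pr Y), zero_smul ℝ (0 : M n)]
  have h3 : ∀ μ, pd (fun _ : ι → ℝ => (0 : ℝ)) x μ = 0 := fun μ => by simp [pd]
  funext μ ν
  unfold Fcon Acon
  simp only [h2, h1, h3]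
  exact congrArg₂ (· + ·) (congrArg₂ (· + ·) (TRG_z _ _ _ _) rfl) rfl

omit [Fintype ι] in
theorem TRG_F1 (K : (ι → ℝ) → E (n + 1) →L[ℂ] E n) (L : (ι → ℝ) → E n →L[ℂ] E (n + 1))
    (g : (ι → ℝ) → ℝ) (pr : M n →ₗ[ℝ] M n) (x : ι → ℝ) (hg : ∀ᶠ y in 𝓝 x, g y = 1) :
    Fcon K L g pr (LinearMap.id - pr) x = Fcon K L (fun _ => 0) LinearMap.id 0 x := by
  have h1 : ∀ μ, pd g x μ = 0 := by
    intro μ
    unfold pd
    rw [(show g =ᶠ[𝓝 x] fun _ => (1 : ℝ) from hg).fderiv_eq]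
    simp
  have h2 : ∀ Y : M n, Qx g pr (LinearMap.id - pr) x Y = Qx (fun _ => 0) LinearMap.id 0 x Y := by
    intro Y
    show pr Y + g x • (Y - pr Y) = Y + (0 : ℝ) • (0 : M n)
    rw [hg.self_of_nhds, one_smul ℝ (Y - pr Y), zero_smul ℝ (0 : M n), add_sub_cancel, add_zero]
  have h3 : ∀ μ, pd (fun _ : ι → ℝ => (0 : ℝ)) x μ = 0 := fun μ => by simp [pd]
  funext μ ν
  unfold Fcon Acon
  simp only [h2, h1, h3]
  exact congrArg₂ (· + ·) (congrArg₂ (· + ·) (TRG_z _ _ _ _) rfl) rfl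

omit [Fintype ι] [DecidableEq ι] in
/-- near points whose coordinate is near an integer the cut-off vanishes at the fractional part -/
theorem TRG_near0 (t : ι) (x : ι → ℝ) (hx : |x t| < 1 / 16) :
    ∀ᶠ y in 𝓝 (fr x), TRG_g t y = 0 := by
  have h0 : ∃ z : ℤ, |fr x t - z| < 1 / 8 := by
    refine ⟨-⌊x t⌋, ?_⟩
    unfold fr
    rw [← Int.self_sub_floor (x t)]
    push_cast
    rw [sub_neg_eq_add, sub_add_cancel]
    linarith
  obtain ⟨z, hz⟩ := h0
  have h1 : ∀ᶠ y : ι → ℝ in 𝓝 (fr x), |y t - z| < 1 / 8 := by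
    have hc : Continuous fun y : ι → ℝ => |y t - z| := by fun_prop
    exact hc.continuousAt.eventually_lt continuousAt_const hz
  filter_upwards [h1] with y hy
  unfold TRG_g
  have h2 : TRG_gam (y t) = TRG_gam (y t - z) := by
    have hp : Function.Periodic TRG_gam 1 := TRG_gam_per
    have := hp.sub_int_mul_eq (x := y t) z
    rw [mul_one] at this
    exact this.symm
  rw [h2]
  exact TRG_gam0 hy.le

omit [Fintype ι] [DecidableEq ι] in
theorem TRG_near1 (t : ι) (x : ι → ℝ) (hx : |x t - 1 / 2| < 1 / 16) :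
    ∀ᶠ y in 𝓝 (fr x), TRG_g t y = 1 := by
  have h0 : ∃ z : ℤ, |fr x t - z - 1 / 2| < 1 / 8 := by
    refine ⟨-⌊x t⌋, ?_⟩
    unfold fr
    rw [← Int.self_sub_floor (x t)]
    push_cast
    rw [sub_neg_eq_add, sub_add_cancel]
    linarith
  obtain ⟨z, hz⟩ := h0
  have h1 : ∀ᶠ y : ι → ℝ in 𝓝 (fr x), |y t - z - 1 / 2| < 1 / 8 := by
    have hc : Continuous fun y : ι → ℝ => |y t - z - 1 / 2| := by fun_prop
    exact hc.continuousAt.eventually_lt continuousAt_const hz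
  filter_upwards [h1] with y hy
  unfold TRG_g
  have h2 : TRG_gam (y t) = TRG_gam (y t - z) := by
    have hp : Function.Periodic TRG_gam 1 := TRG_gam_per
    have := hp.sub_int_mul_eq (x := y t) z
    rw [mul_one] at this
    exact this.symm
  rw [h2]
  exact TRG_gam1 hy.le

/-! ### good forms -/

theorem TRG_good (hWC : ST_WC) (hEQP : ST_EQP) (hGLUE : ST_GLUE) (hFSH : ST_FSH)
    (hGRP : ∀ N0 : E n → ℝ, IsNorm N0 → Unitary N0 →
      ∀ g ∈ PP (n := n) (m := n) N0 N0, star g * g = 1 ∧ g * star g = 1)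
    (hEV : ST_EV) (hEVEN : ST_EVEN)
    {N0 : E n → ℝ} {N : E (n + 1) → ℝ} (hS : Setup n N0 N) (hN : Unitary N0)
    {k : Submodule ℝ (M n)} (hk : LieOf N0 k) {Q0 Q1 : M n →ₗ[ℝ] M n} (hQ : QData N0 k Q0 Q1)
    {π : (Ix n → ℝ) → M (n + 1)} {G : ℝ → ℝ → ℝ} (hT : Torus n π G)
    {L : (Ix n → ℝ) → E n →L[ℂ] E (n + 1)} {K : (Ix n → ℝ) → E (n + 1) →L[ℂ] E n}
    (hF : IsFrame N0 N π 3 L K) (Λ : Ext (Ix n))
    (hP : ∀ Y : M n, MvPolynomial.eval (fun a => c a Y) P =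
      (LinearMap.trace ℂ (E n) ((((-Complex.I) • Y) ^ j : M n) : E n →ₗ[ℂ] E n)).re)
    (g : (Ix n → ℝ) → ℝ) (hgl : ∃ C, LipschitzWith C g) (hgb : ∃ C : ℝ, ∀ x, |g x| ≤ C)
    (hgp : ∀ x μ, g (x + Pi.single μ 1) = g x) :
    Good Λ (fun x => PF Λ c P (Fcon K L g Q0 Q1 (fr x))) := by
  obtain ⟨-, -, w3, w4, w5⟩ := hWC (Ix n) Λ n q c P ⊤ (fun _ _ _ _ => Submodule.mem_top)
    (TRG_InvL hP) K L g Q0 Q1 (fun _ => Submodule.mem_top) (fun _ => Submodule.mem_top)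
    hF.lipK hF.lipL hgl hF.bddK hgb
  refine hGLUE (Ix n) Λ (fun x => PF Λ c P (Fcon K L g Q0 Q1 x)) w3 w4
    (fun x => TRG_ev hEV hEVEN Λ _) w5 ?_
  intro μ
  have h1 := hFSH n N0 N hS hN k hk Q0 Q1 hQ (Ix n) π g (fun x => (hT.proj x).2.1) hT.per hgp L K
    hF μ
  filter_upwards [h1] with x hx hx1 _
  obtain ⟨ha, hb⟩ := hx hx1
  obtain ⟨u1, u2⟩ := hGRP N0 hS.norm0 hN _ ha
  show PF Λ c P (Fcon K L g Q0 Q1 (x + Pi.single μ 1)) = PF Λ c P (Fcon K L g Q0 Q1 x)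
  have h2 : Fcon K L g Q0 Q1 (x + Pi.single μ 1) = fun ν ν' =>
      star ((K x).comp (L (x + Pi.single μ 1)) : M n) * Fcon K L g Q0 Q1 x ν ν' *
        (K x).comp (L (x + Pi.single μ 1)) := by
    funext ν ν'
    exact hb ν ν'
  rw [h2]
  exact TRG_conj hEQP Λ hP _ u1 u2 _

end main

/-- unitary isometries -/
theorem TRG_grp {n : ℕ} (N0 : E n → ℝ) (_ : IsNorm N0) (hN : Unitary N0) :
    ∀ g ∈ PP (n := n) (m := n) N0 N0, star g * g = 1 ∧ g * star g = 1 := by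
  intro g hg
  have h1 : star g * g = 1 := by
    rw [ContinuousLinearMap.star_eq_adjoint]
    exact (ContinuousLinearMap.norm_map_iff_adjoint_comp_self g).1 (hN g hg)
  refine ⟨h1, ?_⟩
  have h2 : ((star g : M n) : E n →ₗ[ℂ] E n) * (g : E n →ₗ[ℂ] E n) = 1 := by
    have : ((star g * g : M n) : E n →ₗ[ℂ] E n) = 1 := by rw [h1]; rfl
    exact this
  have h3 : (g : E n →ₗ[ℂ] E n) * ((star g : M n) : E n →ₗ[ℂ] E n) = 1 :=
    mul_eq_one_comm.1 h2
  ext1 z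
  exact LinearMap.congr_fun h3 z

/-- (4.7) -/
theorem st_TRG (hWC : ST_WC) (hEQP : ST_EQP) (hGLUE : ST_GLUE) (hFSH : ST_FSH)
    (hFREEZE : ST_FREEZE) (hTRANSG : ST_TRANSG) (hEV : ST_EV) (hEVEN : ST_EVEN)
    (hDEG : ST_DEG) : ST_TRG := by
  intro n N0 N hS hN k hk pr hpr hQ π G hT L K hF Λ q j c P hP
  -- projection data
  have q1 : QData N0 k LinearMap.id 0 := by
    refine ⟨fun X _ => ⟨rfl, rfl⟩, fun g _ X => rfl, fun g _ X => ?_⟩
    simp
  have q2 : QData N0 k pr (LinearMap.id - pr) := by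
    refine ⟨fun X hX => ⟨(hQ.fix X hX).1, ?_⟩, hQ.ad0, fun g hg X => ?_⟩
    · simp [(hQ.fix X hX).1]
    · simp only [LinearMap.sub_apply, LinearMap.id_apply]
      rw [hQ.ad0 g hg X, mul_sub, sub_mul]
  -- good forms
  have g0 : Good Λ (fun x => PF Λ c P (Fcon K L (fun _ => 0) pr 0 (fr x))) :=
    TRG_good hWC hEQP hGLUE hFSH TRG_grp hEV hEVEN hS hN hk hQ hT hF Λ hP _
      ⟨0, LipschitzWith.const 0⟩ ⟨0, fun x => by simp⟩ (fun _ _ => rfl)
  have g1 : Good Λ (fun x => PF Λ c P (Fcon K L (fun _ => 0) LinearMap.id 0 (fr x))) :=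
    TRG_good hWC hEQP hGLUE hFSH TRG_grp hEV hEVEN hS hN hk q1 hT hF Λ hP _
      ⟨0, LipschitzWith.const 0⟩ ⟨0, fun x => by simp⟩ (fun _ _ => rfl)
  have g2 : Good Λ (fun x => PF Λ c P (Fcon K L (TRG_g none) pr (LinearMap.id - pr) (fr x))) := by
    refine TRG_good hWC hEQP hGLUE hFSH TRG_grp hEV hEVEN hS hN hk q2 hT hF Λ hP _
      ?_ ⟨1, fun x => TRG_gam_bd _⟩ ?_
    · obtain ⟨C, hC⟩ := TRG_gam_lip
      exact ⟨C * 1, hC.comp (LipschitzWith.eval none)⟩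
    · intro x μ
      unfold TRG_g
      by_cases h : μ = none
      · subst h
        simp [TRG_gam_per]
      · rw [Pi.add_apply, Pi.single_eq_of_ne (Ne.symm h), add_zero]
  -- no component in the direction `none`
  have key : ∀ Q : M n →ₗ[ℝ] M n, QData N0 k Q 0 →
      ∀ᵐ x, Λ.c none * PF Λ c P (Fcon K L (fun _ => 0) Q 0 (fr x)) =
        PF Λ c P (Fcon K L (fun _ => 0) Q 0 (fr x)) * Λ.c none := by
    intro Q hQ'
    have h1 := hFREEZE n N0 N hS hN k hk Q 0 hQ' (Ix n) π (fun _ => 0)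
      (fun x => (hT.proj x).2.1) L K hF (Metric.ball 0 3) none Metric.isOpen_ball subset_rfl
      (fun x _ s => hT.tin x s) (fun _ _ => rfl)
    filter_upwards [TRG_ae_fr h1] with x hx
    exact (hDEG (Ix n) Λ n q c P (Fcon K L (fun _ => 0) Q 0 (fr x))).2.2 none
      (fun ν => hx (TRG_fr_mem x) ν)
  refine hTRANSG (Ix n) Λ none _ _ _ g2 g0 g1 (key pr hQ) (key LinearMap.id q1)
    ⟨1 / 16, by norm_num, ?_, ?_⟩
  · refine Filter.Eventually.of_forall fun x hx => ?_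
    rw [TRG_F0 K L (TRG_g none) pr (fr x) (TRG_near0 none x hx)]
  · refine Filter.Eventually.of_forall fun x hx => ?_
    rw [TRG_F1 K L (TRG_g none) pr (fr x) (TRG_near1 none x hx)]

end Pool.Agent.Helper83.CB
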